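import Mathlib
import Pool.Agent.Helper76.PC.Stmts

/-!
MP_c33217_co, module MAX: vertices of degree at least 6.
-/

namespace Pool.Agent.Helper76.PC

open Finset

theorem st_MAX (h1 : ST_EXP) (h2 : ST_DE) (h3 : ST_WE) (h4 : ST_NUM) : ST_MAX := by
  intro G hB x hx hd
  have hW : 0 < W G := Real.exp_pos _
  set d : ℕ := (G.N x).card with hdd
  have hsum : d * P G = (∑ y ∈ G.N x, P (delE G x y)) + P G := by
    have e1 : ∑ y ∈ G.N x, P G = ∑ y ∈ G.N x, (P (delE G x y) + P (del (del G x) y)) :=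
      Finset.sum_congr rfl (fun y hy => h2 G x y hy)
    rw [Finset.sum_const, smul_eq_mul, Finset.sum_add_distrib, ← h1 G x hx] at e1
    exact e1
  have hle : ∀ y ∈ G.N x, (P (delE G x y) : ℝ) ≤ W G * Real.exp (- cc) := by
    intro y hy
    obtain ⟨hw, hs⟩ := h3 G x y hy
    have := hB (delE G x y) hs
    unfold Good at this
    rw [hw] at this
    exact this
  have hS : ((∑ y ∈ G.N x, P (delE G x y) : ℕ) : ℝ) ≤ d * (W G * Real.exp (- cc)) := by
    rw [Nat.cast_sum]
    calc (∑ y ∈ G.N x, (P (delE G x y) : ℝ)) ≤ ∑ y ∈ G.N x, W G * Real.exp (- cc) :=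
          Finset.sum_le_sum hle
      _ = d * (W G * Real.exp (- cc)) := by rw [Finset.sum_const, nsmul_eq_mul]
  have hsumR : (d : ℝ) * P G = ((∑ y ∈ G.N x, P (delE G x y) : ℕ) : ℝ) + P G := by
    exact_mod_cast hsum
  have hE : Real.exp (- cc) ≤ 80014796 / 100000000 := by
    have := h4.2.1
    unfold DD Ec at this
    push_cast at this
    rw [le_div_iff₀ (by norm_num)]
    exact this
  have hd6 : (6 : ℝ) ≤ d := by exact_mod_cast hd
  have hkey : ((d : ℝ) - 1) * P G ≤ ((d : ℝ) - 1) * W G := by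
    have h5 : ((d : ℝ) - 1) * P G ≤ d * (W G * Real.exp (- cc)) := by linarith
    have h6 : W G * Real.exp (- cc) ≤ W G * (80014796 / 100000000) :=
      mul_le_mul_of_nonneg_left hE hW.le
    have h7 : (d : ℝ) * (W G * Real.exp (- cc)) ≤ d * (W G * (80014796 / 100000000)) :=
      mul_le_mul_of_nonneg_left h6 (by linarith)
    have h8 : (d : ℝ) * (W G * (80014796 / 100000000)) ≤ ((d : ℝ) - 1) * W G := by
      nlinarith
    linarith
  unfold Good
  exact le_of_mul_le_mul_left hkey (by linarith)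

end Pool.Agent.Helper76.PC
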